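import Pool.Agent.W426.LE.SG
set_option autoImplicit false
set_option linter.all false

/-! Project LE, tasks TW and TW0: the signed number of twisted colourings (helper205). -/

namespace Pool.Agent.W205.LE.TW

open Finset
open scoped Classical
open Pool.Agent.W426.LE

section

variable {p n : ℕ} {I T F : Type}

/-- twisted colourings are determined by their values at `y = 0` -/
lemma tw_nat {x : EE I T n → CC p F} {j : ZMod p} (hx : ∀ e, x (rot e) = sh j (x e)) (k : ℕ) :
    (∀ b i, x (.inl (b, i, (k : ZMod n))) = sh (j * (k : ZMod p)) (x (.inl (b, i, 0)))) ∧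
    (∀ τ, x (.inr (τ, (k : ZMod n))) = sh (j * (k : ZMod p)) (x (.inr (τ, 0)))) := by
  induction k with
  | zero => constructor <;> intros <;> simp
  | succ k ih =>
    constructor
    · intro b i
      have h1 := hx (.inl (b, i, (k : ZMod n)))
      simp only [rot] at h1
      push_cast
      rw [h1, ih.1, sh_add]
      congr 1
      ring
    · intro τ
      have h1 := hx (.inr (τ, (k : ZMod n)))
      simp only [rot] at h1
      push_cast
      rw [h1, ih.2, sh_add]
      congr 1
      ring

lemma tw_all [NeZero n] (h : p ∣ n) {x : EE I T n → CC p F} {j : ZMod p}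
    (hx : ∀ e, x (rot e) = sh j (x e)) :
    (∀ b i y, x (.inl (b, i, y)) = sh (j * ZMod.castHom h (ZMod p) y) (x (.inl (b, i, 0)))) ∧
    (∀ τ y, x (.inr (τ, y)) = sh (j * ZMod.castHom h (ZMod p) y) (x (.inr (τ, 0)))) := by
  have e : ∀ y : ZMod n, ZMod.castHom h (ZMod p) y = ((y.val : ℕ) : ZMod p) := by
    intro y
    conv_lhs => rw [← ZMod.natCast_zmod_val y]
    exact map_natCast _ _
  constructor
  · intro b i y
    have h1 := (tw_nat hx y.val).1 b i
    rw [ZMod.natCast_zmod_val] at h1
    rw [h1, e]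
  · intro τ y
    have h1 := (tw_nat hx y.val).2 τ
    rw [ZMod.natCast_zmod_val] at h1
    rw [h1, e]

/-- colour of a cross label -/
def cr (c : ZMod p) : Option F → CC p F
  | none => .inl c
  | some f => .inr f

/-- the second base point -/
def cc1 (h : p ∣ n) (v : T → ZMod n) (j : ZMod p) (c : ZMod p) (ψ : T ≃ Option F) : ZMod p :=
  c - j * ZMod.castHom h (ZMod p) (v (ψ.symm none))

/-- the twisted colouring with given parameters -/
def Ph (h : p ∣ n) (v : T → ZMod n) (j : ZMod p)
    (q : ZMod p × (T ≃ Option F) × (I → ZMod p) × (I → ZMod p)) : EE I T n → CC p F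
  | .inl (false, i, y) => sh (j * ZMod.castHom h (ZMod p) y) (.inl (q.1 + q.2.2.1 i))
  | .inl (true, i, y) => sh (j * ZMod.castHom h (ZMod p) y) (.inl (cc1 h v j q.1 q.2.1 + q.2.2.2 i))
  | .inr (τ, y) => sh (j * ZMod.castHom h (ZMod p) y) (cr q.1 (q.2.1 τ))

lemma Ph_tw (h : p ∣ n) (v : T → ZMod n) (j : ZMod p)
    (q : ZMod p × (T ≃ Option F) × (I → ZMod p) × (I → ZMod p)) (e : EE I T n) :
    Ph h v j q (rot e) = sh j (Ph h v j q e) := by
  have e1 : ∀ y : ZMod n, j * ZMod.castHom h (ZMod p) (y + 1) =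
      j + j * ZMod.castHom h (ZMod p) y := by
    intro y
    rw [map_add, map_one]; ring
  rcases e with ⟨b, i, y⟩ | ⟨τ, y⟩
  · cases b
    · simp only [rot, Ph, sh_add, e1]
    · simp only [rot, Ph, sh_add, e1]
  · simp only [rot, Ph, sh_add, e1]

lemma Ph_false (h : p ∣ n) (s : Bool → I → ZMod n) (v : T → ZMod n) (j : ZMod p)
    (q : ZMod p × (T ≃ Option F) × (I → ZMod p) × (I → ZMod p)) :
    (fun i => Ph h v j q (inc s v (0, false) i)) =
      arr (fun i => j * ZMod.castHom h (ZMod p) (s false i)) q.1 q.2.1 q.2.2.1 := by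
  funext d
  rcases d with ⟨i, b⟩ | τ
  · cases b
    · simp only [inc, Ph, sh, arr, zero_sub, map_neg]
      congr 1
      ring
    · simp only [inc, Ph, sh, arr, map_zero, mul_zero, add_zero]
  · simp only [inc, Ph, arr, map_zero, mul_zero, sh_zero]
    cases q.2.1 τ <;> rfl

lemma Ph_true (h : p ∣ n) (s : Bool → I → ZMod n) (v : T → ZMod n) (j : ZMod p)
    (q : ZMod p × (T ≃ Option F) × (I → ZMod p) × (I → ZMod p)) :
    (fun i => Ph h v j q (inc s v (0, true) i)) =
      arr (fun i => j * ZMod.castHom h (ZMod p) (s true i)) (cc1 h v j q.1 q.2.1) q.2.1 q.2.2.2 := by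
  funext d
  rcases d with ⟨i, b⟩ | τ
  · cases b
    · simp only [inc, Ph, sh, arr, zero_sub, map_neg]
      congr 1
      ring
    · simp only [inc, Ph, sh, arr, map_zero, mul_zero, add_zero]
  · simp only [inc, Ph, arr, zero_sub, map_neg]
    rcases hq : q.2.1 τ with _ | f
    · have : τ = q.2.1.symm none := by rw [← hq]; simp
      simp only [cr, sh, cc1, ← this]
      congr 1
      ring
    · simp only [cr, sh]

lemma Ph_inj (h : p ∣ n) (v : T → ZMod n) (j : ZMod p) :
    Function.Injective (Ph h v j : ZMod p × (T ≃ Option F) × (I → ZMod p) × (I → ZMod p) →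
      (EE I T n → CC p F)) := by
  rintro ⟨c, ψ, a, b⟩ ⟨c', ψ', a', b'⟩ hq
  have h1 : ∀ τ, cr c (ψ τ) = cr c' (ψ' τ) := by
    intro τ
    have := congrFun hq (.inr (τ, 0))
    simpa only [Ph, map_zero, mul_zero, sh_zero] using this
  have hc : c = c' := by
    have h2 := h1 (ψ.symm none)
    rw [Equiv.apply_symm_apply] at h2
    rcases hh : ψ' (ψ.symm none) with _ | f
    · rw [hh] at h2
      simpa [cr] using h2
    · rw [hh] at h2
      simp [cr] at h2
  subst hc
  have hψ : ψ = ψ' := by
    ext1 τ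
    have h2 := h1 τ
    rcases hh : ψ τ with _ | f <;> rcases hh' : ψ' τ with _ | f' <;> rw [hh, hh'] at h2 <;>
      simp [cr] at h2 ⊢
    exact h2
  subst hψ
  have ha : a = a' := by
    funext i
    have := congrFun hq (.inl (false, i, 0))
    simpa only [Ph, map_zero, mul_zero, sh_zero, Sum.inl.injEq, add_right_inj] using this
  have hb : b = b' := by
    funext i
    have := congrFun hq (.inl (true, i, 0))
    simpa only [Ph, map_zero, mul_zero, sh_zero, Sum.inl.injEq, add_right_inj] using this
  subst ha hb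
  rfl

/-- the loop labels get colours in `ZMod p` -/
lemma loop_col [NeZero n] (h : p ∣ n) {s : Bool → I → ZMod n} {v : T → ZMod n} {j : ZMod p}
    {x : EE I T n → CC p F} (hx : ∀ e, x (rot e) = sh j (x e)) (b : Bool)
    (hb : Function.Injective (fun i => x (inc s v (0, b) i))) (i : I) :
    ∃ z : ZMod p, x (.inl (b, i, 0)) = .inl z := by
  rcases hh : x (.inl (b, i, 0)) with z | f
  · exact ⟨z, rfl⟩
  · exfalso
    have h1 : x (inc s v (0, b) (.inl (i, true))) = x (inc s v (0, b) (.inl (i, false))) := by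
      have e1 : inc s v (0, b) (.inl (i, true)) = .inl (b, i, 0) := by cases b <;> rfl
      have e2 : inc s v (0, b) (.inl (i, false)) = .inl (b, i, 0 - s b i) := by cases b <;> rfl
      rw [e1, e2, (tw_all h hx).1 b i (0 - s b i), hh]
      rfl
    have h2 := hb h1
    simp at h2

lemma Ph_surj [Fact p.Prime] [NeZero n] [Fintype I] [Fintype T] [Fintype F] (h : p ∣ n)
    (hI : 2 * Fintype.card I + 1 = p) (hT : Fintype.card T = Fintype.card F + 1)
    {s : Bool → I → ZMod n} {v : T → ZMod n} {j : ZMod p}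
    {x : EE I T n → CC p F} (hx : ∀ e, x (rot e) = sh j (x e))
    (h0 : Function.Bijective (fun i => x (inc s v (0, false) i)))
    (h1 : Function.Bijective (fun i => x (inc s v (0, true) i))) :
    ∃ q, Ph h v j q = x := by
  choose α0 hα0 using fun i => loop_col h hx false h0.1 i
  choose α1 hα1 using fun i => loop_col h hx true h1.1 i
  obtain ⟨t1, t2⟩ := tw_all h hx
  -- colours of the loop labels
  have hL : ∀ q : I × Bool, ∃ z : ZMod p, x (inc s v (0, false) (.inl q)) = .inl z := by
    rintro ⟨i, b⟩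
    cases b
    · refine ⟨α0 i + j * ZMod.castHom h (ZMod p) (0 - s false i), ?_⟩
      show x (.inl (false, i, 0 - s false i)) = _
      rw [t1, hα0]; rfl
    · exact ⟨α0 i, hα0 i⟩
  choose L hL using hL
  have hcard : Fintype.card (I × Bool) < Fintype.card (ZMod p) := by
    rw [ZMod.card, Fintype.card_prod, Fintype.card_bool]
    omega
  obtain ⟨z, hz⟩ : ∃ z, ∀ q, L q ≠ z := by
    by_contra hcon
    push Not at hcon
    have := Fintype.card_le_of_surjective L hcon
    omega
  set ψ0 : T → Option F := fun τ => match x (.inr (τ, 0)) with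
    | .inl _ => none
    | .inr f => some f with hψ0
  have hsurj : Function.Surjective ψ0 := by
    intro o
    rcases o with _ | f
    · obtain ⟨d, hd⟩ := h0.2 (.inl z)
      rcases d with q | τ
      · exfalso
        have h3 := hL q
        simp only at hd
        rw [hd] at h3
        exact hz q (Sum.inl.inj h3).symm
      · refine ⟨τ, ?_⟩
        have hd' : x (.inr (τ, 0)) = .inl z := hd
        simp only [hψ0, hd']
    · obtain ⟨d, hd⟩ := h0.2 (.inr f)
      rcases d with q | τ
      · exfalso
        have h3 := hL q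
        simp only at hd
        rw [hd] at h3
        exact absurd h3 (by simp)
      · refine ⟨τ, ?_⟩
        have hd' : x (.inr (τ, 0)) = .inr f := hd
        simp only [hψ0, hd']
  have hbij : Function.Bijective ψ0 := by
    rw [Fintype.bijective_iff_surjective_and_card]
    exact ⟨hsurj, by rw [hT, Fintype.card_option]⟩
  set ψ : T ≃ Option F := Equiv.ofBijective ψ0 hbij with hψ
  have hψa : ∀ τ, ψ τ = ψ0 τ := fun τ => rfl
  obtain ⟨c, hc⟩ : ∃ c, x (.inr (ψ.symm none, 0)) = .inl c := by
    have h2 : ψ (ψ.symm none) = none := Equiv.apply_symm_apply _ _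
    rw [hψa] at h2
    simp only [hψ0] at h2
    rcases hh : x (.inr (ψ.symm none, 0)) with c | f
    · exact ⟨c, rfl⟩
    · rw [hh] at h2
      simp at h2
  have hcr : ∀ τ, x (.inr (τ, 0)) = cr c (ψ τ) := by
    intro τ
    rcases hh : x (.inr (τ, 0)) with c' | f
    · have h2 : ψ τ = none := by rw [hψa]; simp only [hψ0, hh]
      have h3 : τ = ψ.symm none := by rw [← h2]; simp
      rw [h2]
      rw [h3, hc] at hh
      rw [cr, ← hh]
    · have h2 : ψ τ = some f := by rw [hψa]; simp only [hψ0, hh]
      rw [h2]; rfl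
  refine ⟨(c, ψ, fun i => α0 i - c, fun i => α1 i - cc1 h v j c ψ), ?_⟩
  funext e
  rcases e with ⟨b, i, y⟩ | ⟨τ, y⟩
  · cases b
    · rw [t1 false i y, hα0 i]
      simp only [Ph]
      congr 2
      ring
    · rw [t1 true i y, hα1 i]
      simp only [Ph]
      congr 2
      ring
  · rw [t2 τ y, hcr τ]
    simp only [Ph]

end

theorem main (h1 : S_TW1) (h2 : S_TW2) : S_TW := by
  intro p n _ _ hp2 hn h I T F _ _ _ ρ ρ' s v j hj
  obtain ⟨ε, hε, hsg⟩ := h2 p hp2 I T F ρ ρ'
  have hI : 2 * Fintype.card I + 1 = p := by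
    have := Fintype.card_congr ρ'
    rw [ZMod.card, Fintype.card_option, Fintype.card_prod, Fintype.card_bool] at this
    omega
  have hT : Fintype.card T = Fintype.card F + 1 := by
    have := Fintype.card_congr ρ
    rw [Fintype.card_sum, Fintype.card_sum, Fintype.card_prod, Fintype.card_bool, ZMod.card] at this
    omega
  set w : (EE I T n → CC p F) → ℤ := fun x =>
    sg ρ (fun i => x (inc s v (0, false) i)) * sg ρ (fun i => x (inc s v (0, true) i)) with hw
  set g0 : I → ZMod p := fun i => j * ZMod.castHom h (ZMod p) (s false i) with hg0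
  set g1 : I → ZMod p := fun i => j * ZMod.castHom h (ZMod p) (s true i) with hg1
  have hwP : ∀ q : ZMod p × (T ≃ Option F) × (I → ZMod p) × (I → ZMod p),
      w (Ph h v j q) = sg ρ' (ff g0 q.2.2.1) * sg ρ' (ff g1 q.2.2.2) := by
    intro q
    simp only [hw]
    rw [Ph_false, Ph_true, hsg, hsg]
    calc _ = (ε q.2.1 * ε q.2.1) * (sg ρ' (ff g0 q.2.2.1) * sg ρ' (ff g1 q.2.2.2)) := by ring
      _ = _ := by rw [hε, one_mul]
  have e1 : ZZ ρ s v j = ∑ x ∈ univ.filter (fun x : EE I T n → CC p F => ∀ e, x (rot e) = sh j (x e)),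
      w x := by
    unfold ZZ
    refine Finset.sum_congr rfl fun x hx => ?_
    exact h1 p n hp2 hn I T F ρ s v j x (Finset.mem_filter.1 hx).2
  have e2 : ∑ x ∈ univ.filter (fun x : EE I T n → CC p F => ∀ e, x (rot e) = sh j (x e)), w x =
      ∑ q : ZMod p × (T ≃ Option F) × (I → ZMod p) × (I → ZMod p), w (Ph h v j q) := by
    rw [← Finset.sum_image (f := w) (g := Ph h v j) (s := univ)
      (fun a _ b _ hab => Ph_inj h v j hab)]
    symm
    apply Finset.sum_subset
    · intro x hx
      obtain ⟨q, _, rfl⟩ := Finset.mem_image.1 hx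
      exact Finset.mem_filter.2 ⟨Finset.mem_univ _, Ph_tw h v j q⟩
    · intro x hx hx'
      by_contra hne
      apply hx'
      simp only [hw] at hne
      have b0 := (sg_ne_zero_iff ρ _).1 (left_ne_zero_of_mul hne)
      have b1 := (sg_ne_zero_iff ρ _).1 (right_ne_zero_of_mul hne)
      obtain ⟨q, hq⟩ := Ph_surj h hI hT (Finset.mem_filter.1 hx).2 b0 b1
      exact Finset.mem_image.2 ⟨q, Finset.mem_univ _, hq⟩
  rw [e1, e2]
  simp_rw [hwP]
  rw [Fintype.sum_prod_type]
  simp only [Fintype.sum_prod_type]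
  have e3 : ∑ a : I → ZMod p, ∑ b : I → ZMod p, sg ρ' (ff g0 a) * sg ρ' (ff g1 b) =
      YY ρ' g0 * YY ρ' g1 := by
    unfold YY
    rw [Finset.sum_mul_sum]
  have eT : T ≃ Option F := Fintype.equivOfCardEq (by rw [hT, Fintype.card_option])
  rw [e3, Finset.sum_const, Finset.sum_const, Finset.card_univ, Finset.card_univ, ZMod.card,
    Fintype.card_equiv eT]
  simp only [nsmul_eq_mul]
  ring

theorem main0 : S_TW0 := by
  intro p n _ _ hp2 I T F _ _ _ _ ρ s v
  unfold ZZ
  refine Finset.sum_eq_zero fun x hx => ?_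
  have hx' := (Finset.mem_filter.1 hx).2
  obtain ⟨i⟩ := (inferInstance : Nonempty I)
  refine Finset.prod_eq_zero (Finset.mem_univ (0, false)) ?_
  apply sg_of_not_inj
  intro hinj
  have h1 : ∀ y : ZMod n, x (.inl (false, i, y)) = x (.inl (false, i, 0)) := by
    intro y
    have := (tw_nat hx' y.val).1 false i
    rw [ZMod.natCast_zmod_val, zero_mul, sh_zero] at this
    exact this
  have h2 : x (inc s v (0, false) (.inl (i, true))) = x (inc s v (0, false) (.inl (i, false))) := by
    show x (.inl (false, i, 0)) = x (.inl (false, i, 0 - s false i))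
    exact (h1 _).symm
  have h3 := hinj h2
  simp at h3

end Pool.Agent.W205.LE.TW
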